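import Mathlib

namespace Pool.Agent.Results.MP_7112d2_mp.ZeroStdPosRiem

open Matrix Topology Filter
open scoped ComplexOrder Kronecker

section defs

variable {n m : Type*} [Fintype n] [DecidableEq n] [Fintype m] [DecidableEq m]

/-- Density matrices. -/
def IsState (ρ : Matrix n n ℂ) : Prop := ρ.PosSemidef ∧ ρ.trace = 1

/-- `(id_k ⊗ Φ)(A)`. -/
def ampliation (k : ℕ) (Φ : Matrix n n ℂ →ₗ[ℂ] Matrix m m ℂ)
    (A : Matrix (Fin k × n) (Fin k × n) ℂ) : Matrix (Fin k × m) (Fin k × m) ℂ :=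
  Matrix.of fun p q => Φ (Matrix.of fun x y => A (p.1, x) (q.1, y)) p.2 q.2

/-- Quantum channels: completely positive trace-preserving linear maps. -/
structure IsChannel (Φ : Matrix n n ℂ →ₗ[ℂ] Matrix m m ℂ) : Prop where
  cp : ∀ (k : ℕ) (A : Matrix (Fin k × n) (Fin k × n) ℂ), A.PosSemidef →
    (ampliation k Φ A).PosSemidef
  tp : ∀ X, (Φ X).trace = X.trace

/-- Operator convex functions on `(0, ∞)`. -/
def OperatorConvex (f : ℝ → ℝ) : Prop :=
  ∀ (k : ℕ) (A B : Matrix (Fin k) (Fin k) ℂ), A.PosDef → B.PosDef →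
    ∀ s ∈ Set.Icc (0 : ℝ) 1,
      (s • cfc f A + (1 - s) • cfc f B - cfc f (s • A + (1 - s) • B)).PosSemidef

/-- The class `𝓕`. -/
def ClassF (f : ℝ → ℝ) : Prop := OperatorConvex f ∧ f 1 = 0 ∧ 0 < deriv (deriv f) 1

/-- The class `𝓚`. -/
def ClassK (κ : ℝ → ℝ) : Prop :=
  OperatorConvex κ ∧ (∀ x : ℝ, 0 < x → x * κ x = κ (1 / x)) ∧ κ 1 = 1

/-- The generalised inverse of a positive semidefinite matrix. -/
noncomputable def ginv (σ : Matrix n n ℂ) : Matrix n n ℂ := cfc (fun x : ℝ => x⁻¹) σ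

/-- The vectorisation of a matrix. -/
def vec (A : Matrix n n ℂ) : n × n → ℂ := fun p => A p.1 p.2

/-- The superoperator `L_ρ R_γ⁻¹ : A ↦ ρ A γ⁻¹`, as a matrix acting on vectorised matrices
(see `LR_mulVec_vec`). -/
noncomputable def LR (ρ γ : Matrix n n ℂ) : Matrix (n × n) (n × n) ℂ := ρ ⊗ₖ (ginv γ)ᵀ

/-- The standard `f`-divergence `⟨γ^{1/2}, f(L_ρ R_γ⁻¹)(γ^{1/2})⟩_HS`. -/
noncomputable def stdDiv (f : ℝ → ℝ) (ρ γ : Matrix n n ℂ) : ℝ :=
  (star (vec (cfc Real.sqrt γ)) ⬝ᵥ (cfc f (LR ρ γ) *ᵥ vec (cfc Real.sqrt γ))).re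

/-- The function `κ`, extended to `0` by `κ(0) = κ(0⁺)`. -/
noncomputable def extZero (κ : ℝ → ℝ) (x : ℝ) : ℝ :=
  if x = 0 then limUnder (𝓝[>] (0 : ℝ)) κ else κ x

/-- The squared Riemannian semi-norm `⟨Y, κ(L_σ R_σ⁻¹) R_σ⁻¹(Y)⟩_HS`. -/
noncomputable def riem (κ : ℝ → ℝ) (σ Y : Matrix n n ℂ) : ℝ :=
  (star (vec Y) ⬝ᵥ (cfc (extZero κ) (LR σ σ) *ᵥ vec (Y * ginv σ))).re

/-- The support of a self-adjoint matrix: its range. -/
def supp (ρ : Matrix n n ℂ) : Submodule ℂ (n → ℂ) := LinearMap.range (Matrix.toLin' ρ)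

end defs

section coeffs

variable {n m l : Type*} [Fintype n] [DecidableEq n] [Fintype m] [DecidableEq m]
  [Fintype l] [DecidableEq l]

/-- The relative expansion coefficient of the standard `f`-divergence. -/
noncomputable def etaStd (f : ℝ → ℝ) (N : Matrix n n ℂ →ₗ[ℂ] Matrix m m ℂ)
    (M : Matrix n n ℂ →ₗ[ℂ] Matrix l l ℂ) : EReal :=
  sInf {r : EReal | ∃ ρ γ : Matrix n n ℂ, IsState ρ ∧ IsState γ ∧ ρ ≠ γ ∧ supp ρ = supp γ ∧
    stdDiv f (M ρ) (M γ) ≠ 0 ∧
    r = ((stdDiv f (N ρ) (N γ) / stdDiv f (M ρ) (M γ) : ℝ) : EReal)}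

/-- The Riemannian relative expansion coefficient. -/
noncomputable def etaRiem (κ : ℝ → ℝ) (N : Matrix n n ℂ →ₗ[ℂ] Matrix m m ℂ)
    (M : Matrix n n ℂ →ₗ[ℂ] Matrix l l ℂ) : EReal :=
  sInf {r : EReal | ∃ ρ X : Matrix n n ℂ, IsState ρ ∧ X.IsHermitian ∧ X.trace = 0 ∧
    riem κ (M ρ) (M X) ≠ 0 ∧
    r = ((riem κ (N ρ) (N X) / riem κ (M ρ) (M X) : ℝ) : EReal)}

end coeffs

section general

variable {n m : Type*} [Fintype n] [DecidableEq n] [Fintype m] [DecidableEq m]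

lemma vec_mul_mul (A B C : Matrix n n ℂ) : (A ⊗ₖ Cᵀ) *ᵥ vec B = vec (A * B * C) := by
  funext p
  obtain ⟨i, j⟩ := p
  simp only [Matrix.mulVec, dotProduct, vec, Matrix.kroneckerMap_apply, Matrix.transpose_apply,
    Matrix.mul_apply, Fintype.sum_prod_type, Finset.sum_mul]
  rw [Finset.sum_comm]
  refine Finset.sum_congr rfl fun x _ => Finset.sum_congr rfl fun y _ => ?_
  ring

/-- `LR ρ γ` acts on vectorised matrices as `A ↦ ρ A γ⁻¹`. -/
lemma LR_mulVec_vec (ρ γ A : Matrix n n ℂ) : LR ρ γ *ᵥ vec A = vec (ρ * A * ginv γ) :=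
  vec_mul_mul _ _ _

lemma cfc_mul_eq {A : Matrix n n ℂ} (hA : A.IsHermitian) {W : Matrix n n ℂ} {a : n → ℝ}
    (h : A * W = W * diagonal (fun i => (a i : ℂ))) (f : ℝ → ℝ) :
    cfc f A * W = W * diagonal (fun i => (f (a i) : ℂ)) := by
  set U : Matrix n n ℂ := (hA.eigenvectorUnitary : Matrix n n ℂ) with hU
  have hUU : star U * U = 1 := Unitary.coe_star_mul_self hA.eigenvectorUnitary
  have hUU' : U * star U = 1 := Unitary.coe_mul_star_self hA.eigenvectorUnitary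
  have h1 : A = U * diagonal (fun i => (hA.eigenvalues i : ℂ)) * star U := by
    conv_lhs => rw [hA.spectral_theorem]
    rfl
  have h2 : cfc f A = U * diagonal (fun i => (f (hA.eigenvalues i) : ℂ)) * star U := by
    rw [hA.cfc_eq]
    rfl
  set V : Matrix n n ℂ := star U * W with hV
  have h3 : diagonal (fun i => (hA.eigenvalues i : ℂ)) * V = V * diagonal (fun i => (a i : ℂ)) := by
    have := congrArg (fun X => star U * X) h
    beta_reduce at this
    nth_rewrite 1 [h1] at this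
    calc diagonal (fun i => (hA.eigenvalues i : ℂ)) * V
        = (star U * U) * (diagonal (fun i => (hA.eigenvalues i : ℂ)) * (star U * W)) := by
          rw [hUU, one_mul]
      _ = star U * (U * diagonal (fun i => (hA.eigenvalues i : ℂ)) * star U * W) := by
          simp only [mul_assoc]
      _ = star U * (W * diagonal (fun i => (a i : ℂ))) := this
      _ = _ := by rw [hV, mul_assoc]
  have h4 : diagonal (fun i => (f (hA.eigenvalues i) : ℂ)) * V =
      V * diagonal (fun i => (f (a i) : ℂ)) := by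
    ext i j
    have h5 := congrFun (congrFun h3 i) j
    simp only [Matrix.diagonal_mul, Matrix.mul_diagonal] at h5 ⊢
    by_cases hz : V i j = 0
    · simp [hz]
    · have h6 : (hA.eigenvalues i : ℂ) = (a j : ℂ) := by
        rw [mul_comm] at h5
        exact mul_left_cancel₀ hz h5
      have h7 : hA.eigenvalues i = a j := by exact_mod_cast h6
      rw [h7, mul_comm]
  calc cfc f A * W = U * (diagonal (fun i => (f (hA.eigenvalues i) : ℂ)) * V) := by
        rw [h2, hV]; simp only [mul_assoc]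
    _ = U * (star U * W * diagonal (fun i => (f (a i) : ℂ))) := by rw [h4, hV]
    _ = _ := by
        rw [← mul_assoc, ← mul_assoc, hUU', one_mul]

lemma cfc_diag (d : n → ℝ) (f : ℝ → ℝ) :
    cfc f (diagonal (fun i => (d i : ℂ))) = diagonal (fun i => (f (d i) : ℂ)) := by
  have h := cfc_mul_eq (A := diagonal (fun i => (d i : ℂ))) (W := 1) (a := d)
    (by
      rw [Matrix.IsHermitian, Matrix.diagonal_conjTranspose]
      congr 1
      funext i
      exact Complex.conj_ofReal _) (by simp) f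
  simpa using h

lemma cfc_herm (f : ℝ → ℝ) (A : Matrix n n ℂ) : (cfc f A).IsHermitian :=
  cfc_predicate f A

lemma cfc_unitary {A : Matrix n n ℂ} (hA : A.IsHermitian) {W : Matrix n n ℂ} {a : n → ℝ}
    (hW : W * Wᴴ = 1)
    (h : A * W = W * diagonal (fun i => (a i : ℂ))) (f : ℝ → ℝ) :
    cfc f A = W * diagonal (fun i => (f (a i) : ℂ)) * Wᴴ := by
  rw [← cfc_mul_eq hA h f, mul_assoc, hW, mul_one]

lemma herm_LR {ρ γ : Matrix n n ℂ} (hρ : ρ.IsHermitian) : (LR ρ γ).IsHermitian := by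
  unfold LR
  rw [Matrix.IsHermitian, Matrix.conjTranspose_kronecker, hρ.eq, ginv,
    (cfc_herm (fun x : ℝ => x⁻¹) γ).transpose.eq]

lemma star_dot (W : Matrix n n ℂ) (v x : n → ℂ) :
    star v ⬝ᵥ (W *ᵥ x) = star (Wᴴ *ᵥ v) ⬝ᵥ x := by
  rw [Matrix.star_mulVec, Matrix.conjTranspose_conjTranspose, Matrix.dotProduct_mulVec]

lemma riem_formula {σ : Matrix n n ℂ} (hσ : σ.IsHermitian) {U : Matrix n n ℂ} {a : n → ℝ}
    (hU : U * Uᴴ = 1) (h : σ * U = U * diagonal (fun i => (a i : ℂ))) (κ : ℝ → ℝ)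
    (Y : Matrix n n ℂ) :
    riem κ σ Y = ∑ i, ∑ j, extZero κ (a i * (a j)⁻¹) * (a j)⁻¹ * ‖(Uᴴ * Y * U) i j‖ ^ 2 := by
  have hU' : Uᴴ * U = 1 := mul_eq_one_comm.mp hU
  have hg : ginv σ = U * diagonal (fun i => (((a i)⁻¹ : ℝ) : ℂ)) * Uᴴ :=
    cfc_unitary hσ hU h _
  set W : Matrix (n × n) (n × n) ℂ := U ⊗ₖ (Uᴴ)ᵀ with hW
  have hWH : Wᴴ = Uᴴ ⊗ₖ Uᵀ := by
    rw [hW, Matrix.conjTranspose_kronecker]
    congr 1
    ext i j
    simp [Matrix.conjTranspose_apply]
  have hWW : W * Wᴴ = 1 := by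
    rw [hWH, hW, ← Matrix.mul_kronecker_mul, hU, ← Matrix.transpose_mul, hU, Matrix.transpose_one,
      Matrix.one_kronecker_one]
  have hLW : LR σ σ * W = W * diagonal (fun p : n × n => ((a p.1 * (a p.2)⁻¹ : ℝ) : ℂ)) := by
    have e1 : diagonal (fun p : n × n => ((a p.1 * (a p.2)⁻¹ : ℝ) : ℂ)) =
        diagonal (fun i => (a i : ℂ)) ⊗ₖ diagonal (fun i => (((a i)⁻¹ : ℝ) : ℂ)) := by
      rw [Matrix.diagonal_kronecker_diagonal]
      congr 1
      funext p
      push_cast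
      rfl
    have e2 : (ginv σ)ᵀ * (Uᴴ)ᵀ = (Uᴴ)ᵀ * diagonal (fun i => (((a i)⁻¹ : ℝ) : ℂ)) := by
      rw [← Matrix.transpose_mul, hg, mul_assoc, ← mul_assoc, ← mul_assoc, hU', one_mul,
        Matrix.transpose_mul, Matrix.diagonal_transpose]
    rw [e1, hW, LR, ← Matrix.mul_kronecker_mul, ← Matrix.mul_kronecker_mul, h, e2]
  have hc : cfc (extZero κ) (LR σ σ) =
      W * diagonal (fun p : n × n => (extZero κ (a p.1 * (a p.2)⁻¹) : ℂ)) * Wᴴ :=
    cfc_unitary (herm_LR hσ) hWW hLW _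
  have h1 : Wᴴ *ᵥ vec Y = vec (Uᴴ * Y * U) := by rw [hWH, vec_mul_mul]
  have h2 : Wᴴ *ᵥ vec (Y * ginv σ) =
      vec (Uᴴ * Y * U * diagonal (fun i => (((a i)⁻¹ : ℝ) : ℂ))) := by
    rw [hWH, vec_mul_mul, hg]
    congr 1
    calc Uᴴ * (Y * (U * diagonal (fun i => (((a i)⁻¹ : ℝ) : ℂ)) * Uᴴ)) * U
        = Uᴴ * Y * U * diagonal (fun i => (((a i)⁻¹ : ℝ) : ℂ)) * (Uᴴ * U) := by
          simp only [mul_assoc]
      _ = _ := by rw [hU', mul_one]
  rw [riem, hc, ← Matrix.mulVec_mulVec, ← Matrix.mulVec_mulVec, star_dot, h1, h2, dotProduct,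
    Complex.re_sum, Fintype.sum_prod_type]
  refine Finset.sum_congr rfl fun i _ => Finset.sum_congr rfl fun j _ => ?_
  simp only [Pi.star_apply, vec, Matrix.mulVec_diagonal, Matrix.mul_diagonal]
  generalize (Uᴴ * Y * U) i j = z
  rw [← Complex.normSq_eq_norm_sq]
  have : star z * (↑(extZero κ (a i * (a j)⁻¹)) * (z * ↑(a j)⁻¹)) =
      ((extZero κ (a i * (a j)⁻¹) * (a j)⁻¹ : ℝ) : ℂ) * (z * (starRingEnd ℂ) z) := by
    push_cast
    simp only [Complex.star_def]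
    ring
  rw [this, Complex.mul_conj, ← Complex.ofReal_mul, Complex.ofReal_re]

/-- our `f` -/
def f0 (x : ℝ) : ℝ := (x - 1) ^ 2
/-- our `κ` -/
noncomputable def k0 (x : ℝ) : ℝ := 2 / (1 + x)

lemma cfc_f0 {A : Matrix n n ℂ} (hA : A.IsHermitian) : cfc f0 A = (A - 1) * (A - 1) := by
  have hA' : IsSelfAdjoint A := hA
  have h : cfc (fun x : ℝ => (x - 1) ^ 2) A = (A - 1) * (A - 1) := by
    rw [cfc_pow (fun x : ℝ => x - 1) 2 A, cfc_sub (fun x : ℝ => x) (fun _ => 1) A,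
      cfc_id' ℝ A, cfc_const_one ℝ A, sq]
  exact h

lemma spectral {A : Matrix n n ℂ} (hA : A.IsHermitian) : ∃ U : Matrix n n ℂ, U * Uᴴ = 1 ∧
    Uᴴ * U = 1 ∧ A * U = U * diagonal (fun i => (hA.eigenvalues i : ℂ)) := by
  refine ⟨hA.eigenvectorUnitary, Unitary.coe_mul_star_self hA.eigenvectorUnitary,
    Unitary.coe_star_mul_self hA.eigenvectorUnitary, ?_⟩
  have h1 : A = (hA.eigenvectorUnitary : Matrix n n ℂ) *
      diagonal (fun i => (hA.eigenvalues i : ℂ)) *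
      star (hA.eigenvectorUnitary : Matrix n n ℂ) := by
    conv_lhs => rw [hA.spectral_theorem]
    rfl
  nth_rewrite 1 [h1]
  rw [mul_assoc, Unitary.coe_star_mul_self hA.eigenvectorUnitary, mul_one]

lemma cfc_k0 {A : Matrix n n ℂ} (hA : A.PosDef) :
    (1 + A) * cfc k0 A = (2 : ℝ) • (1 : Matrix n n ℂ) ∧
      cfc k0 A * (1 + A) = (2 : ℝ) • (1 : Matrix n n ℂ) := by
  obtain ⟨U, hU, hU', h⟩ := spectral hA.isHermitian
  set a := hA.isHermitian.eigenvalues with ha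
  have hp : ∀ i, 0 < a i := hA.eigenvalues_pos
  have h1 : cfc k0 A = U * diagonal (fun i => (k0 (a i) : ℂ)) * Uᴴ :=
    cfc_unitary hA.isHermitian hU h _
  have h2 : 1 + A = U * diagonal (fun i => ((1 + a i : ℝ) : ℂ)) * Uᴴ := by
    have e : diagonal (fun i => ((1 + a i : ℝ) : ℂ)) =
        (1 : Matrix n n ℂ) + diagonal (fun i => (a i : ℂ)) := by
      rw [← Matrix.diagonal_one, Matrix.diagonal_add]
      congr 1
      funext i
      push_cast
      rfl
    rw [e, mul_add, mul_one, add_mul, hU, ← h, mul_assoc, hU, mul_one]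
  have key : ∀ b c : n → ℝ, (∀ i, b i * c i = 2) →
      (U * diagonal (fun i => ((b i : ℝ) : ℂ)) * Uᴴ) *
        (U * diagonal (fun i => ((c i : ℝ) : ℂ)) * Uᴴ) = (2 : ℝ) • (1 : Matrix n n ℂ) := by
    intro b c hbc
    calc (U * diagonal (fun i => ((b i : ℝ) : ℂ)) * Uᴴ) *
        (U * diagonal (fun i => ((c i : ℝ) : ℂ)) * Uᴴ)
        = U * diagonal (fun i => ((b i : ℝ) : ℂ)) * (Uᴴ * U) *
          diagonal (fun i => ((c i : ℝ) : ℂ)) * Uᴴ := by simp only [mul_assoc]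
      _ = U * (diagonal (fun i => ((b i : ℝ) : ℂ)) * diagonal (fun i => ((c i : ℝ) : ℂ))) * Uᴴ := by
          rw [hU', mul_one]; simp only [mul_assoc]
      _ = U * ((2 : ℝ) • (1 : Matrix n n ℂ)) * Uᴴ := by
          congr 2
          rw [Matrix.diagonal_mul_diagonal]
          ext i j
          by_cases hij : i = j
          · subst hij
            simp only [Matrix.diagonal_apply_eq, Matrix.smul_apply, Matrix.one_apply_eq]
            rw [← Complex.ofReal_mul, hbc]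
            simp
          · simp [hij]
      _ = _ := by rw [mul_smul_comm, mul_one, smul_mul_assoc, hU]
  constructor
  · rw [h1, h2]
    refine key _ _ fun i => ?_
    have := hp i
    simp only [k0]
    field_simp
  · rw [h1, h2]
    refine key _ _ fun i => ?_
    have := hp i
    simp only [k0]
    field_simp

lemma opConvex_f0 : OperatorConvex f0 := by
  intro k A B hA hB s hs
  have hAh := hA.isHermitian
  have hBh := hB.isHermitian
  have hC : (s • A + (1 - s) • B).IsHermitian := by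
    rw [Matrix.IsHermitian, Matrix.conjTranspose_add, Matrix.conjTranspose_smul,
      Matrix.conjTranspose_smul, hAh.eq, hBh.eq]
    simp
  rw [cfc_f0 hAh, cfc_f0 hBh, cfc_f0 hC]
  have e : s • ((A - 1) * (A - 1)) + (1 - s) • ((B - 1) * (B - 1)) -
      (s • A + (1 - s) • B - 1) * (s • A + (1 - s) • B - 1) =
      (s * (1 - s)) • ((A - B) * (A - B)) := by
    simp only [sub_mul, mul_sub, add_mul, mul_add, smul_mul_assoc, mul_smul_comm, smul_smul,
      one_mul, mul_one, smul_sub]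
    module
  rw [e]
  have h2 : ((A - B) * (A - B)).PosSemidef := by
    have : (A - B)ᴴ = A - B := by rw [Matrix.conjTranspose_sub, hAh.eq, hBh.eq]
    nth_rewrite 1 [← this]
    exact Matrix.posSemidef_conjTranspose_mul_self _
  exact h2.smul (mul_nonneg hs.1 (by linarith [hs.2]))

lemma opConvex_k0 : OperatorConvex k0 := by
  intro k A B hA hB s hs
  have hC : (s • A + (1 - s) • B).PosDef := by
    rcases eq_or_lt_of_le hs.1 with h0 | h0
    · rw [← h0]; simpa using hB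
    · exact (hA.smul h0).add_posSemidef (hB.posSemidef.smul (by linarith [hs.2]))
  obtain ⟨a1, a2⟩ := cfc_k0 hA
  obtain ⟨b1, b2⟩ := cfc_k0 hB
  obtain ⟨c1, c2⟩ := cfc_k0 hC
  have hP := cfc_herm k0 A
  have hQ := cfc_herm k0 B
  have hR := cfc_herm k0 (s • A + (1 - s) • B)
  set P := cfc k0 A with hPd
  set Q := cfc k0 B with hQd
  set R := cfc k0 (s • A + (1 - s) • B) with hRd
  have e1 : (P - R) * (1 + A) * (P - R) =
      (2 : ℝ) • P - (4 : ℝ) • R + R * (1 + A) * R := by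
    have : (P - R) * (1 + A) * (P - R) = P * (1 + A) * P - P * (1 + A) * R - R * ((1 + A) * P) +
      R * (1 + A) * R := by noncomm_ring
    rw [this, a1, a2, smul_mul_assoc, smul_mul_assoc, mul_smul_comm, one_mul, one_mul, mul_one]
    module
  have e2 : (Q - R) * (1 + B) * (Q - R) =
      (2 : ℝ) • Q - (4 : ℝ) • R + R * (1 + B) * R := by
    have : (Q - R) * (1 + B) * (Q - R) = Q * (1 + B) * Q - Q * (1 + B) * R - R * ((1 + B) * Q) +
      R * (1 + B) * R := by noncomm_ring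
    rw [this, b1, b2, smul_mul_assoc, smul_mul_assoc, mul_smul_comm, one_mul, one_mul, mul_one]
    module
  have e3 : s • (R * (1 + A) * R) + (1 - s) • (R * (1 + B) * R) = (2 : ℝ) • R := by
    have : R * (1 + (s • A + (1 - s) • B)) * R =
        s • (R * (1 + A) * R) + (1 - s) • (R * (1 + B) * R) := by
      simp only [mul_add, add_mul, mul_one, smul_mul_assoc, mul_smul_comm, smul_add]
      module
    rw [← this, c2, smul_mul_assoc, one_mul]
  have e : s • P + (1 - s) • Q - R =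
      (1 / 2 : ℝ) • (s • ((P - R) * (1 + A) * (P - R)) +
        (1 - s) • ((Q - R) * (1 + B) * (Q - R))) := by
    rw [e1, e2]
    have : s • ((2 : ℝ) • P - (4 : ℝ) • R + R * (1 + A) * R) +
        (1 - s) • ((2 : ℝ) • Q - (4 : ℝ) • R + R * (1 + B) * R) =
        (2 * s) • P + (2 * (1 - s)) • Q - (4 : ℝ) • R +
        (s • (R * (1 + A) * R) + (1 - s) • (R * (1 + B) * R)) := by
      module
    rw [this, e3]
    module
  rw [e]
  have h1A : (1 + A).PosSemidef := Matrix.PosSemidef.one.add hA.posSemidef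
  have h1B : (1 + B).PosSemidef := Matrix.PosSemidef.one.add hB.posSemidef
  have hPR : (P - R)ᴴ = P - R := by rw [Matrix.conjTranspose_sub, hP.eq, hR.eq]
  have hQR : (Q - R)ᴴ = Q - R := by rw [Matrix.conjTranspose_sub, hQ.eq, hR.eq]
  have p1 := h1A.mul_mul_conjTranspose_same (P - R)
  have p2 := h1B.mul_mul_conjTranspose_same (Q - R)
  rw [hPR] at p1
  rw [hQR] at p2
  exact ((p1.smul hs.1).add (p2.smul (by linarith [hs.2] : (0:ℝ) ≤ 1 - s))).smul (by norm_num)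

lemma classF_f0 : ClassF f0 := by
  refine ⟨opConvex_f0, by simp [f0], ?_⟩
  have : deriv f0 = fun x => 2 * (x - 1) := by
    funext x
    unfold f0
    simp
  rw [this]
  simp

lemma classK_k0 : ClassK k0 := by
  refine ⟨opConvex_k0, ?_, by norm_num [k0]⟩
  intro x hx
  simp only [k0]
  field_simp
  ring

lemma tendsto_k0 : Tendsto k0 (𝓝[>] (0 : ℝ)) (𝓝 2) := by
  have : ContinuousAt k0 0 := by
    unfold k0
    fun_prop (disch := norm_num)
  have h := this.tendsto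
  have h2 : k0 0 = 2 := by norm_num [k0]
  rw [h2] at h
  exact h.mono_left nhdsWithin_le_nhds

lemma ext_k0 : extZero k0 = k0 := by
  funext x
  unfold extZero
  split_ifs with h
  · rw [tendsto_k0.limUnder_eq, h]; norm_num [k0]
  · rfl

lemma k0_mul_inv {a b : ℝ} (ha : 0 ≤ a) (hb : 0 ≤ b) :
    k0 (a * b⁻¹) * b⁻¹ = if b = 0 then 0 else 2 / (a + b) := by
  split_ifs with h
  · simp [h]
  · have hb' : 0 < b := lt_of_le_of_ne hb (Ne.symm h)
    unfold k0
    field_simp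
    ring

/-- lower semi-definiteness of the `f₀` divergence -/
lemma stdDiv_nonneg {ρ γ : Matrix n n ℂ} (hρ : ρ.IsHermitian) : 0 ≤ stdDiv f0 ρ γ := by
  have hL := herm_LR (γ := γ) hρ
  have hL1 : (LR ρ γ - 1)ᴴ = LR ρ γ - 1 := by
    rw [Matrix.conjTranspose_sub, hL.eq, Matrix.conjTranspose_one]
  rw [stdDiv, cfc_f0 hL, ← Matrix.mulVec_mulVec, star_dot, hL1]
  have := dotProduct_star_self_nonneg ((LR ρ γ - 1) *ᵥ vec (cfc Real.sqrt γ))
  have h2 := (Complex.le_def.mp this).1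
  simpa using h2

lemma stdDiv_diag {ρ : Matrix n n ℂ} (hρ : ρ.IsHermitian) {g : n → ℝ} (hg : ∀ i, 0 < g i) :
    stdDiv f0 ρ (diagonal (fun i => (g i : ℂ))) =
      ∑ i, ∑ j, ‖(ρ - diagonal (fun i => (g i : ℂ))) i j‖ ^ 2 / g j := by
  have hL := herm_LR (γ := diagonal (fun i => (g i : ℂ))) hρ
  have hL1 : (LR ρ (diagonal (fun i => (g i : ℂ))) - 1)ᴴ =
      LR ρ (diagonal (fun i => (g i : ℂ))) - 1 := by
    rw [Matrix.conjTranspose_sub, hL.eq, Matrix.conjTranspose_one]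
  rw [stdDiv, cfc_f0 hL, ← Matrix.mulVec_mulVec, star_dot, hL1, Matrix.sub_mulVec,
    LR_mulVec_vec, Matrix.one_mulVec, ginv, cfc_diag, cfc_diag, dotProduct, Complex.re_sum,
    Fintype.sum_prod_type]
  refine Finset.sum_congr rfl fun i _ => Finset.sum_congr rfl fun j _ => ?_
  simp only [Pi.star_apply, Pi.sub_apply, vec, Matrix.mul_diagonal, Matrix.sub_apply]
  have h1 : ρ i j * (Real.sqrt (g j) : ℂ) * (((g j)⁻¹ : ℝ) : ℂ) -
      diagonal (fun i => (Real.sqrt (g i) : ℂ)) i j =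
      (ρ i j - diagonal (fun i => (g i : ℂ)) i j) * (((Real.sqrt (g j))⁻¹ : ℝ) : ℂ) := by
    have hs : 0 < Real.sqrt (g j) := Real.sqrt_pos.mpr (hg j)
    have hs2 : Real.sqrt (g j) * Real.sqrt (g j) = g j := Real.mul_self_sqrt (hg j).le
    have e1 : Real.sqrt (g j) * (g j)⁻¹ = (Real.sqrt (g j))⁻¹ := by
      have := (hg j).ne'
      field_simp
      exact Real.sq_sqrt (hg j).le
    have e2 : g j * (Real.sqrt (g j))⁻¹ = Real.sqrt (g j) := by
      field_simp
      exact (Real.sq_sqrt (hg j).le).symm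
    rw [mul_assoc, ← Complex.ofReal_mul, e1, sub_mul]
    congr 1
    by_cases hij : i = j
    · subst hij
      simp only [Matrix.diagonal_apply_eq]
      rw [← Complex.ofReal_mul, e2]
    · simp [hij]
  rw [h1]
  generalize ρ i j - diagonal (fun i => (g i : ℂ)) i j = z
  have h3 : star (z * (((Real.sqrt (g j))⁻¹ : ℝ) : ℂ)) * (z * (((Real.sqrt (g j))⁻¹ : ℝ) : ℂ)) =
      (((Real.sqrt (g j))⁻¹ * (Real.sqrt (g j))⁻¹ : ℝ) : ℂ) * (z * (starRingEnd ℂ) z) := by
    push_cast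
    simp only [Complex.star_def, map_mul, map_inv₀, Complex.conj_ofReal]
    ring
  rw [h3, Complex.mul_conj, ← Complex.ofReal_mul, Complex.ofReal_re, Complex.normSq_eq_norm_sq,
    ← mul_inv, Real.mul_self_sqrt (hg j).le]
  ring

/-- A map in Kraus form. -/
def krausMap {r : ℕ} (w : Fin r → ℝ) (K : Fin r → Matrix m n ℂ) :
    Matrix n n ℂ →ₗ[ℂ] Matrix m m ℂ where
  toFun X := ∑ i, (w i : ℂ) • (K i * X * (K i)ᴴ)
  map_add' X Y := by
    rw [← Finset.sum_add_distrib]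
    refine Finset.sum_congr rfl fun i _ => ?_
    rw [Matrix.mul_add, Matrix.add_mul, smul_add]
  map_smul' c X := by
    rw [RingHom.id_apply, Finset.smul_sum]
    refine Finset.sum_congr rfl fun i _ => ?_
    rw [Matrix.mul_smul, Matrix.smul_mul, smul_comm]

lemma krausMap_apply {r : ℕ} (w : Fin r → ℝ) (K : Fin r → Matrix m n ℂ) (X : Matrix n n ℂ) :
    krausMap w K X = ∑ i, (w i : ℂ) • (K i * X * (K i)ᴴ) := rfl

lemma ampliation_kraus (k : ℕ) {r : ℕ} (w : Fin r → ℝ) (K : Fin r → Matrix m n ℂ)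
    (A : Matrix (Fin k × n) (Fin k × n) ℂ) :
    ampliation k (krausMap w K) A = ∑ i, (w i : ℂ) •
      (((1 : Matrix (Fin k) (Fin k) ℂ) ⊗ₖ K i) * A * ((1 : Matrix (Fin k) (Fin k) ℂ) ⊗ₖ K i)ᴴ) := by
  ext p q
  obtain ⟨a, x⟩ := p
  obtain ⟨b, y⟩ := q
  simp only [ampliation, Matrix.of_apply, krausMap_apply, Matrix.sum_apply, Matrix.smul_apply]
  refine Finset.sum_congr rfl fun i _ => ?_
  congr 1
  simp only [Matrix.mul_apply, Fintype.sum_prod_type, Matrix.kroneckerMap_apply,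
    Matrix.conjTranspose_apply, Matrix.one_apply, Matrix.of_apply]
  simp [ite_mul, mul_ite, Finset.sum_ite_eq, apply_ite]

lemma isChannel_kraus {r : ℕ} {w : Fin r → ℝ} (hw : ∀ i, 0 ≤ w i) {K : Fin r → Matrix m n ℂ}
    (hK : ∑ i, (w i : ℂ) • ((K i)ᴴ * K i) = 1) : IsChannel (krausMap w K) := by
  constructor
  · intro k A hA
    rw [ampliation_kraus]
    refine Matrix.posSemidef_sum _ fun i _ => ?_
    refine (hA.mul_mul_conjTranspose_same _).smul ?_
    exact_mod_cast hw i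
  · intro X
    rw [krausMap_apply, Matrix.trace_sum]
    have : ∀ i, ((w i : ℂ) • (K i * X * (K i)ᴴ)).trace = ((w i : ℂ) • ((K i)ᴴ * K i) * X).trace := by
      intro i
      rw [Matrix.trace_smul, Matrix.trace_mul_comm, ← Matrix.mul_assoc, Matrix.smul_mul,
        Matrix.trace_smul]
    simp only [this]
    rw [← Matrix.trace_sum, ← Finset.sum_mul, hK, one_mul]

lemma kraus_herm {r : ℕ} {w : Fin r → ℝ} {K : Fin r → Matrix m n ℂ} {X : Matrix n n ℂ}
    (hX : X.IsHermitian) : (krausMap w K X).IsHermitian := by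
  rw [krausMap_apply, Matrix.IsHermitian, Matrix.conjTranspose_sum]
  refine Finset.sum_congr rfl fun i _ => ?_
  rw [Matrix.conjTranspose_smul, Matrix.conjTranspose_mul, Matrix.conjTranspose_mul,
    Matrix.conjTranspose_conjTranspose, hX.eq, Matrix.mul_assoc]
  congr 1
  simp

end general

section example2

/-- Kraus operators of `M` -/
def KM : Fin 2 → Matrix (Fin 2) (Fin 2) ℂ := ![1, !![1, 0; 0, -1]]
/-- weights of `M` -/
noncomputable def wM : Fin 2 → ℝ := ![3 / 4, 1 / 4]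

/-- vectors defining `N` -/
def vN : Fin 6 → Fin 2 → ℂ :=
  ![![1, 0], ![0, 1], ![1, 1], ![1, -1], ![1, Complex.I], ![1, -Complex.I]]
/-- weights of `N` -/
noncomputable def wN : Fin 6 → ℝ := ![1 / 3, 1 / 3, 1 / 6, 1 / 6, 1 / 6, 1 / 6]
/-- Kraus operators `|k⟩⟨v_k|` of `N` -/
def KN (k : Fin 6) : Matrix (Fin 6) (Fin 2) ℂ := vecMulVec (Pi.single k 1) (star (vN k))

/-- The channel `M`: partial dephasing of a qubit. -/
noncomputable def chM : Matrix (Fin 2) (Fin 2) ℂ →ₗ[ℂ] Matrix (Fin 2) (Fin 2) ℂ := krausMap wM KM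
/-- The channel `N`: the measurement of a uniformly random Pauli observable. -/
noncomputable def chN : Matrix (Fin 2) (Fin 2) ℂ →ₗ[ℂ] Matrix (Fin 6) (Fin 6) ℂ := krausMap wN KN

lemma chM_apply (X : Matrix (Fin 2) (Fin 2) ℂ) :
    chM X = !![X 0 0, X 0 1 / 2; X 1 0 / 2, X 1 1] := by
  rw [chM, krausMap_apply, Fin.sum_univ_two]
  ext i j
  fin_cases i <;> fin_cases j <;>
    simp [wM, KM, Matrix.mul_apply, Fin.sum_univ_two, Matrix.conjTranspose_apply,
      Matrix.vecMul, dotProduct] <;> ring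

lemma chM_channel : IsChannel chM := by
  apply isChannel_kraus
  · intro i; fin_cases i <;> norm_num [wM]
  · rw [Fin.sum_univ_two]
    ext i j
    fin_cases i <;> fin_cases j <;>
      simp [wM, KM, Matrix.mul_apply, Fin.sum_univ_two, Matrix.conjTranspose_apply,
      Matrix.vecMul, dotProduct] <;> norm_num

/-- outcome functional -/
noncomputable def pN (X : Matrix (Fin 2) (Fin 2) ℂ) (k : Fin 6) : ℂ :=
  (wN k : ℂ) * (star (vN k) ⬝ᵥ X *ᵥ vN k)

lemma chN_apply (X : Matrix (Fin 2) (Fin 2) ℂ) : chN X = diagonal (pN X) := by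
  rw [chN, krausMap_apply]
  ext i j
  rw [Matrix.sum_apply]
  have : ∀ k : Fin 6, ((wN k : ℂ) • (KN k * X * (KN k)ᴴ)) i j =
      if k = i then (if k = j then pN X k else 0) else 0 := by
    intro k
    have h1 : (KN k * X * (KN k)ᴴ) i j =
        (star (vN k) ⬝ᵥ X *ᵥ vN k) * ((Pi.single k 1 : Fin 6 → ℂ) i *
          (Pi.single k 1 : Fin 6 → ℂ) j) := by
      have hs : ∀ a : Fin 6, (starRingEnd ℂ) ((Pi.single k 1 : Fin 6 → ℂ) a) =
          (Pi.single k 1 : Fin 6 → ℂ) a := by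
        intro a
        by_cases h : a = k
        · subst h; simp
        · simp [Pi.single_eq_of_ne h]
      simp only [KN, Matrix.mul_apply, vecMulVec_apply, Fin.sum_univ_two, dotProduct,
        Matrix.mulVec, Matrix.conjTranspose_apply, Pi.star_apply, star_mul', star_star,
        Complex.star_def, hs, Complex.conj_conj]
      ring
    rw [Matrix.smul_apply, h1, pN, smul_eq_mul]
    by_cases hi : k = i
    · subst hi
      by_cases hj : k = j
      · subst hj; simp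
      · rw [if_pos rfl, if_neg hj, Pi.single_eq_of_ne (Ne.symm hj)]; ring
    · rw [if_neg hi, Pi.single_eq_of_ne (Ne.symm hi)]; ring
  simp only [this]
  rw [Finset.sum_ite_eq']
  simp [Matrix.diagonal_apply]

lemma chN_channel : IsChannel chN := by
  apply isChannel_kraus
  · intro i; fin_cases i <;> norm_num [wN]
  · have : ∀ k : Fin 6, (KN k)ᴴ * KN k = vecMulVec (vN k) (star (vN k)) := by
      intro k
      ext a b
      simp only [KN, Matrix.mul_apply, vecMulVec_apply, Matrix.conjTranspose_apply, Pi.star_apply,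
        star_mul', star_star]
      rw [Finset.sum_eq_single k]
      · simp
      · intro c _ hc
        rw [Pi.single_eq_of_ne hc]; simp
      · simp
    simp only [this]
    rw [Fin.sum_univ_six]
    ext a b
    fin_cases a <;> fin_cases b <;>
      (apply Complex.ext <;>
        simp [wN, vN, vecMulVec_apply, Matrix.add_apply, Matrix.smul_apply] <;> norm_num)

/-- explicit values -/
lemma pN_apply {X : Matrix (Fin 2) (Fin 2) ℂ} (hX : X.IsHermitian) (k : Fin 6) :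
    pN X k = ((![(X 0 0).re / 3, (X 1 1).re / 3,
      ((X 0 0).re + (X 1 1).re + 2 * (X 0 1).re) / 6,
      ((X 0 0).re + (X 1 1).re - 2 * (X 0 1).re) / 6,
      ((X 0 0).re + (X 1 1).re - 2 * (X 0 1).im) / 6,
      ((X 0 0).re + (X 1 1).re + 2 * (X 0 1).im) / 6] k : ℝ) : ℂ) := by
  have h00 : (X 0 0).im = 0 := by
    have := congrArg Complex.im (hX.apply 0 0)
    simp at this; linarith
  have h11 : (X 1 1).im = 0 := by
    have := congrArg Complex.im (hX.apply 1 1)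
    simp at this; linarith
  have h10 : X 1 0 = star (X 0 1) := (hX.apply 1 0).symm
  fin_cases k <;>
    (apply Complex.ext <;>
      simp [pN, wN, vN, dotProduct, Matrix.mulVec, Fin.sum_univ_two, h10, h00, h11] <;> ring)

/-- real outcome values -/
noncomputable def rN (X : Matrix (Fin 2) (Fin 2) ℂ) : Fin 6 → ℝ :=
  ![(X 0 0).re / 3, (X 1 1).re / 3,
      ((X 0 0).re + (X 1 1).re + 2 * (X 0 1).re) / 6,
      ((X 0 0).re + (X 1 1).re - 2 * (X 0 1).re) / 6,
      ((X 0 0).re + (X 1 1).re - 2 * (X 0 1).im) / 6,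
      ((X 0 0).re + (X 1 1).re + 2 * (X 0 1).im) / 6]

lemma chN_herm {X : Matrix (Fin 2) (Fin 2) ℂ} (hX : X.IsHermitian) :
    chN X = diagonal (fun k => (rN X k : ℂ)) := by
  rw [chN_apply]
  congr 1
  funext k
  exact pN_apply hX k

lemma riem_diag {n : Type*} [Fintype n] [DecidableEq n] {p : n → ℝ} (hp : ∀ i, 0 ≤ p i)
    (q : n → ℝ) :
    riem k0 (diagonal (fun k => (p k : ℂ))) (diagonal (fun k => (q k : ℂ))) =
      ∑ k, q k ^ 2 / p k := by
  have hH : (diagonal (fun k => (p k : ℂ))).IsHermitian := by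
    rw [Matrix.IsHermitian, Matrix.diagonal_conjTranspose]
    congr 1
    funext i
    exact Complex.conj_ofReal _
  rw [riem_formula hH (U := 1) (a := p) (by simp) (by simp), ext_k0]
  refine Finset.sum_congr rfl fun i _ => ?_
  rw [Finset.sum_eq_single i]
  · rw [k0_mul_inv (hp i) (hp i)]
    simp only [Matrix.conjTranspose_one, one_mul, mul_one, Matrix.diagonal_apply_eq,
      Complex.norm_real, Real.norm_eq_abs, sq_abs]
    split_ifs with h
    · rw [h]; simp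
    · field_simp
      ring
  · intro j _ hj
    rw [Matrix.conjTranspose_one, one_mul, mul_one, Matrix.diagonal_apply_ne _ (Ne.symm hj)]
    simp
  · simp

/-- facts about qubit states -/
lemma state_facts {σ : Matrix (Fin 2) (Fin 2) ℂ} (h : IsState σ) :
    0 ≤ (σ 0 0).re ∧ 0 ≤ (σ 1 1).re ∧ (σ 0 0).re + (σ 1 1).re = 1 ∧
      (σ 0 0).im = 0 ∧ (σ 1 1).im = 0 ∧
      (σ 0 1).re ^ 2 + (σ 0 1).im ^ 2 ≤ (σ 0 0).re * (σ 1 1).re := by
  obtain ⟨hp, ht⟩ := h
  have hH := hp.isHermitian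
  have h00 : (σ 0 0).im = 0 := by
    have := congrArg Complex.im (hH.apply 0 0)
    simp at this; linarith
  have h11 : (σ 1 1).im = 0 := by
    have := congrArg Complex.im (hH.apply 1 1)
    simp at this; linarith
  have h10 : σ 1 0 = star (σ 0 1) := (hH.apply 1 0).symm
  have hdet := hp.det_nonneg
  rw [Matrix.det_fin_two, h10] at hdet
  have htr : (σ 0 0).re + (σ 1 1).re = 1 := by
    have := congrArg Complex.re ht
    simpa [Matrix.trace, Fin.sum_univ_two] using this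
  have hd : 0 ≤ (σ 0 0).re * (σ 1 1).re - ((σ 0 1).re ^ 2 + (σ 0 1).im ^ 2) := by
    have := (Complex.le_def.mp hdet).1
    simp [h00, h11] at this
    nlinarith
  have d0 : 0 ≤ (σ 0 0).re := (Complex.le_def.mp (hp.diag_nonneg (i := 0))).1
  have d1 : 0 ≤ (σ 1 1).re := (Complex.le_def.mp (hp.diag_nonneg (i := 1))).1
  exact ⟨d0, d1, htr, h00, h11, by linarith⟩

lemma rN_nonneg {σ : Matrix (Fin 2) (Fin 2) ℂ} (h : IsState σ) (k : Fin 6) : 0 ≤ rN σ k := by
  obtain ⟨h0, h1, h2, -, -, h3⟩ := state_facts h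
  have hre : (σ 0 1).re ^ 2 ≤ 1 / 4 := by nlinarith [sq_nonneg (σ 0 1).im, sq_nonneg ((σ 0 0).re - (σ 1 1).re)]
  have him : (σ 0 1).im ^ 2 ≤ 1 / 4 := by nlinarith [sq_nonneg (σ 0 1).re, sq_nonneg ((σ 0 0).re - (σ 1 1).re)]
  have a1 := abs_le_of_sq_le_sq' (b := (1 : ℝ) / 2) (by linarith : (σ 0 1).re ^ 2 ≤ (1 / 2) ^ 2) (by norm_num)
  have a2 := abs_le_of_sq_le_sq' (b := (1 : ℝ) / 2) (by linarith : (σ 0 1).im ^ 2 ≤ (1 / 2) ^ 2) (by norm_num)
  fin_cases k <;> simp [rN] <;> linarith [a1.1, a1.2, a2.1, a2.2]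

lemma pair_lower {p q r : ℝ} (hp : 0 ≤ p) (hq : 0 ≤ q) (hpq : p + q = 1 / 3) :
    r ^ 2 / 3 ≤ (r / 3) ^ 2 / p + (r / 3) ^ 2 / q := by
  have hr := sq_nonneg (r / 3)
  rcases eq_or_lt_of_le hp with h | h
  · have : q = 1 / 3 := by linarith
    rw [← h, this]
    simp
    linarith
  · have h1 : (r / 3) ^ 2 * 3 ≤ (r / 3) ^ 2 / p := by
      rw [le_div_iff₀ h]
      nlinarith
    have h2 : 0 ≤ (r / 3) ^ 2 / q := by positivity
    linarith

lemma riemN_lower {σ X : Matrix (Fin 2) (Fin 2) ℂ} (h : IsState σ) (hX : X.IsHermitian)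
    (ht : X.trace = 0) :
    ((X 0 0).re ^ 2 / (σ 0 0).re + (X 0 0).re ^ 2 / (σ 1 1).re) / 3 + ‖X 0 1‖ ^ 2 / 3 ≤
      riem k0 (chN σ) (chN X) := by
  rw [chN_herm h.1.isHermitian, chN_herm hX, riem_diag (rN_nonneg h)]
  obtain ⟨h0, h1, h2, -, -, h3⟩ := state_facts h
  have hx : (X 1 1).re = - (X 0 0).re := by
    have := congrArg Complex.re ht
    simp [Matrix.trace, Fin.sum_univ_two] at this
    linarith
  have r2 := rN_nonneg h 2
  have r3 := rN_nonneg h 3
  have r4 := rN_nonneg h 4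
  have r5 := rN_nonneg h 5
  have l1 := pair_lower (r := (X 0 1).re) r2 r3 (by simp [rN]; linarith)
  have l2 := pair_lower (r := (X 0 1).im) r4 r5 (by simp [rN]; linarith)
  rw [Fin.sum_univ_six, ← Complex.normSq_eq_norm_sq, Complex.normSq_apply]
  have e0 : rN X 0 ^ 2 / rN σ 0 = (X 0 0).re ^ 2 / (σ 0 0).re / 3 := by
    simp only [rN, Matrix.cons_val_zero]
    by_cases hz : (σ 0 0).re = 0
    · rw [hz]; simp
    · field_simp
  have e1 : rN X 1 ^ 2 / rN σ 1 = (X 0 0).re ^ 2 / (σ 1 1).re / 3 := by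
    simp only [rN, Matrix.cons_val_one, Matrix.cons_val_zero, hx]
    by_cases hz : (σ 1 1).re = 0
    · rw [hz]; simp
    · field_simp
  have e2 : rN X 2 ^ 2 = ((X 0 1).re / 3) ^ 2 := by simp [rN, hx]; ring
  have e3 : rN X 3 ^ 2 = ((X 0 1).re / 3) ^ 2 := by simp [rN, hx]; ring
  have e4 : rN X 4 ^ 2 = ((X 0 1).im / 3) ^ 2 := by simp [rN, hx]; ring
  have e5 : rN X 5 ^ 2 = ((X 0 1).im / 3) ^ 2 := by simp [rN, hx]; ring
  rw [e0, e1, e2, e3, e4, e5]
  nlinarith

/-- entries of `Uᴴ Y U` -/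
lemma conj_entry (U Y : Matrix (Fin 2) (Fin 2) ℂ) (i j : Fin 2) :
    (Uᴴ * Y * U) i j = star (U 0 i) * (Y 0 0 * U 0 j + Y 0 1 * U 1 j) +
      star (U 1 i) * (Y 1 0 * U 0 j + Y 1 1 * U 1 j) := by
  simp only [Matrix.mul_apply, Fin.sum_univ_two, Matrix.conjTranspose_apply]
  ring

/-- the main real inequality -/
lemma real_ineq {A B p q a x z S : ℝ} (hAB : A ^ 2 + B ^ 2 = 1)
    (hp : 0 ≤ p) (hq : 0 ≤ q) (hpq : p + q = 1)
    (ha : 1 / 2 * (A ^ 2 * p + B ^ 2 * q) ≤ a) (hS : S = x ^ 2 / p + x ^ 2 / q)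
    (hp0 : p = 0 → A = 0) (hq0 : q = 0 → B = 0) {Y : ℝ}
    (hY : |Y| ≤ A ^ 2 * |x| + B ^ 2 * |x| + A * B * z) :
    Y ^ 2 ≤ 6 * a * (S + z ^ 2) := by
  set D := A ^ 2 * p + B ^ 2 * q with hD
  have hD0 : 0 ≤ D := by positivity
  have h1 : Y ^ 2 ≤ 3 * (A ^ 4 * x ^ 2 + B ^ 4 * x ^ 2 + A ^ 2 * B ^ 2 * z ^ 2) := by
    have h0 : Y ^ 2 ≤ (A ^ 2 * |x| + B ^ 2 * |x| + A * B * z) ^ 2 := by
      rw [← sq_abs Y]
      exact pow_le_pow_left₀ (abs_nonneg _) hY 2
    rw [← sq_abs x]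
    nlinarith [sq_nonneg (A ^ 2 * |x| - B ^ 2 * |x|), sq_nonneg (A ^ 2 * |x| - A * B * z),
      sq_nonneg (B ^ 2 * |x| - A * B * z)]
  have hA1 : A ^ 2 ≤ 1 := by nlinarith [sq_nonneg B]
  have hB1 : B ^ 2 ≤ 1 := by nlinarith [sq_nonneg A]
  have h2 : A ^ 4 * x ^ 2 ≤ D * (x ^ 2 / p) := by
    rcases eq_or_lt_of_le hp with h | h
    · rw [hp0 h.symm, ← h]; simp
    · have e : A ^ 2 * x ^ 2 = A ^ 2 * p * (x ^ 2 / p) := by field_simp
      have e2 : A ^ 2 * p * (x ^ 2 / p) ≤ D * (x ^ 2 / p) := by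
        apply mul_le_mul_of_nonneg_right _ (by positivity)
        rw [hD]
        have : 0 ≤ B ^ 2 * q := by positivity
        linarith
      have e3 : A ^ 4 * x ^ 2 ≤ A ^ 2 * x ^ 2 := by nlinarith [sq_nonneg (A * x), sq_nonneg x]
      linarith
  have h3 : B ^ 4 * x ^ 2 ≤ D * (x ^ 2 / q) := by
    rcases eq_or_lt_of_le hq with h | h
    · rw [hq0 h.symm, ← h]; simp
    · have e : B ^ 2 * x ^ 2 = B ^ 2 * q * (x ^ 2 / q) := by field_simp
      have e2 : B ^ 2 * q * (x ^ 2 / q) ≤ D * (x ^ 2 / q) := by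
        apply mul_le_mul_of_nonneg_right _ (by positivity)
        rw [hD]
        have : 0 ≤ A ^ 2 * p := by positivity
        linarith
      have e3 : B ^ 4 * x ^ 2 ≤ B ^ 2 * x ^ 2 := by nlinarith [sq_nonneg (B * x), sq_nonneg x]
      linarith
  have h4 : A ^ 2 * B ^ 2 * z ^ 2 ≤ D * z ^ 2 := by
    apply mul_le_mul_of_nonneg_right _ (sq_nonneg z)
    have e1 : D - A ^ 2 * B ^ 2 = A ^ 4 * p + B ^ 4 * q := by
      rw [hD]
      have : A ^ 2 = 1 - B ^ 2 := by linarith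
      have hq' : q = 1 - p := by linarith
      rw [hq']
      have h4' : A ^ 4 = (1 - B ^ 2) ^ 2 := by rw [← this]; ring
      rw [h4', this]
      ring
    have : 0 ≤ A ^ 4 * p + B ^ 4 * q := by positivity
    linarith
  have hSz : 0 ≤ S + z ^ 2 := by rw [hS]; positivity
  calc Y ^ 2 ≤ 3 * (A ^ 4 * x ^ 2 + B ^ 4 * x ^ 2 + A ^ 2 * B ^ 2 * z ^ 2) := h1
    _ ≤ 3 * (D * (S + z ^ 2)) := by rw [hS]; nlinarith
    _ ≤ 6 * a * (S + z ^ 2) := by nlinarith

lemma chM_state {σ : Matrix (Fin 2) (Fin 2) ℂ} (h : IsState σ) : IsState (chM σ) := by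
  constructor
  · have := (chM_channel.cp 1 (Matrix.of fun p q => σ p.2 q.2) (by
      have h1 := h.1.submatrix (fun p : Fin 1 × Fin 2 => p.2)
      exact h1))
    have h2 := this.submatrix (fun x : Fin 2 => ((0 : Fin 1), x))
    exact h2
  · rw [chM_channel.tp, h.2]

lemma chM_herm {X : Matrix (Fin 2) (Fin 2) ℂ} (hX : X.IsHermitian) : (chM X).IsHermitian :=
  kraus_herm hX

lemma riemM_upper {σ X : Matrix (Fin 2) (Fin 2) ℂ} (h : IsState σ) (hX : X.IsHermitian)
    (ht : X.trace = 0) :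
    riem k0 (chM σ) (chM X) ≤
      44 * ((X 0 0).re ^ 2 / (σ 0 0).re + (X 0 0).re ^ 2 / (σ 1 1).re) + 20 * ‖X 0 1‖ ^ 2 := by
  obtain ⟨h0, h1, h2, i0, i1, h3⟩ := state_facts h
  have hs := chM_state h
  obtain ⟨U, hU, hU', hE⟩ := spectral hs.1.isHermitian
  set a := hs.1.isHermitian.eigenvalues with ha
  have hpos : ∀ i, 0 ≤ a i := hs.1.eigenvalues_nonneg
  rw [riem_formula hs.1.isHermitian hU hE, ext_k0]
  have hk : ∀ i j, k0 (a i * (a j)⁻¹) * (a j)⁻¹ = if a j = 0 then 0 else 2 / (a i + a j) :=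
    fun i j => k0_mul_inv (hpos i) (hpos j)
  simp only [hk]
  set S := (X 0 0).re ^ 2 / (σ 0 0).re + (X 0 0).re ^ 2 / (σ 1 1).re with hS
  set z := ‖X 0 1‖ with hz
  set x := (X 0 0).re with hxd
  -- facts on X
  have hX00 : X 0 0 = (x : ℂ) := by
    apply Complex.ext
    · simp [hxd]
    · have := congrArg Complex.im (hX.apply 0 0)
      simp at this ⊢; linarith
  have hX11 : X 1 1 = -(x : ℂ) := by
    have : X 0 0 + X 1 1 = 0 := by rw [← Matrix.trace_fin_two]; exact ht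
    rw [← hX00]; linear_combination this
  have hX10 : X 1 0 = star (X 0 1) := (hX.apply 1 0).symm
  have hσ00 : σ 0 0 = ((σ 0 0).re : ℂ) := by
    apply Complex.ext <;> simp [i0]
  have hσ11 : σ 1 1 = ((σ 1 1).re : ℂ) := by
    apply Complex.ext <;> simp [i1]
  have hσ10 : σ 1 0 = star (σ 0 1) := (h.1.isHermitian.apply 1 0).symm
  -- column norms
  have hcol : ∀ i, ‖U 0 i‖ ^ 2 + ‖U 1 i‖ ^ 2 = 1 := by
    intro i
    have := congrFun (congrFun hU' i) i
    rw [Matrix.mul_apply, Fin.sum_univ_two, Matrix.one_apply_eq] at this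
    simp only [Matrix.conjTranspose_apply, Complex.star_def] at this
    rw [mul_comm, Complex.mul_conj, mul_comm, Complex.mul_conj, Complex.normSq_eq_norm_sq,
      Complex.normSq_eq_norm_sq] at this
    exact_mod_cast this
  have hle : ∀ k i, ‖U k i‖ ≤ 1 := by
    intro k i
    have := hcol i
    have h5 : ‖U k i‖ ^ 2 ≤ 1 := by
      fin_cases k
      · simp only [Fin.zero_eta]; nlinarith [sq_nonneg ‖U 1 i‖]
      · simp only [Fin.mk_one]; nlinarith [sq_nonneg ‖U 0 i‖]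
    nlinarith [norm_nonneg (U k i)]
  have hXe : ∀ i j, (Uᴴ * chM X * U) i j = star (U 0 i) * ((x : ℂ) * U 0 j + X 0 1 / 2 * U 1 j) +
      star (U 1 i) * (star (X 0 1) / 2 * U 0 j + -(x : ℂ) * U 1 j) := by
    intro i j
    rw [conj_entry, chM_apply]
    simp [hX00, hX11, hX10]
  have hz2 : ‖X 0 1 / 2‖ = z / 2 := by rw [norm_div, hz]; norm_num
  have hz3 : ‖star (X 0 1) / 2‖ = z / 2 := by rw [norm_div, norm_star, hz]; norm_num
  have hxn : ‖(x : ℂ)‖ = |x| := by rw [Complex.norm_real, Real.norm_eq_abs]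
  have hbound : ∀ i j, ‖(Uᴴ * chM X * U) i j‖ ≤ ‖U 0 i‖ * (|x| * ‖U 0 j‖ + z / 2 * ‖U 1 j‖) +
      ‖U 1 i‖ * (z / 2 * ‖U 0 j‖ + |x| * ‖U 1 j‖) := by
    intro i j
    rw [hXe]
    refine (norm_add_le _ _).trans ?_
    rw [norm_mul, norm_mul, norm_star, norm_star]
    have e1 : ‖(x : ℂ) * U 0 j + X 0 1 / 2 * U 1 j‖ ≤ |x| * ‖U 0 j‖ + z / 2 * ‖U 1 j‖ := by
      refine (norm_add_le _ _).trans ?_
      rw [norm_mul, norm_mul, hz2, hxn]
    have e2 : ‖star (X 0 1) / 2 * U 0 j + -(x : ℂ) * U 1 j‖ ≤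
        z / 2 * ‖U 0 j‖ + |x| * ‖U 1 j‖ := by
      refine (norm_add_le _ _).trans ?_
      rw [norm_mul, norm_mul, hz3, norm_neg, hxn]
    gcongr
  have hz0 : 0 ≤ z := norm_nonneg _
  have hoff : ∀ i j, ‖(Uᴴ * chM X * U) i j‖ ^ 2 ≤ 8 * x ^ 2 + 2 * z ^ 2 := by
    intro i j
    have e := hbound i j
    have e1 : ‖(Uᴴ * chM X * U) i j‖ ≤ 2 * |x| + z := by
      have t1 : |x| * ‖U 0 j‖ + z / 2 * ‖U 1 j‖ ≤ |x| + z / 2 := by
        have := mul_le_of_le_one_right (abs_nonneg x) (hle 0 j)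
        have := mul_le_of_le_one_right (by positivity : 0 ≤ z / 2) (hle 1 j)
        linarith
      have t2 : z / 2 * ‖U 0 j‖ + |x| * ‖U 1 j‖ ≤ |x| + z / 2 := by
        have := mul_le_of_le_one_right (abs_nonneg x) (hle 1 j)
        have := mul_le_of_le_one_right (by positivity : 0 ≤ z / 2) (hle 0 j)
        linarith
      have t3 : ‖U 0 i‖ * (|x| * ‖U 0 j‖ + z / 2 * ‖U 1 j‖) ≤ 1 * (|x| + z / 2) :=
        mul_le_mul (hle 0 i) t1 (by positivity) (by norm_num)
      have t4 : ‖U 1 i‖ * (z / 2 * ‖U 0 j‖ + |x| * ‖U 1 j‖) ≤ 1 * (|x| + z / 2) :=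
        mul_le_mul (hle 1 i) t2 (by positivity) (by norm_num)
      linarith
    have e2 : ‖(Uᴴ * chM X * U) i j‖ ^ 2 ≤ (2 * |x| + z) ^ 2 :=
      pow_le_pow_left₀ (norm_nonneg _) e1 2
    have e3 : (2 * |x| + z) ^ 2 ≤ 8 * x ^ 2 + 2 * z ^ 2 := by
      rw [← sq_abs x]
      nlinarith [sq_nonneg (2 * |x| - z)]
    linarith
  have hxS : x ^ 2 ≤ S := by
    rcases eq_or_lt_of_le h0 with hc | hc
    · have : (σ 1 1).re = 1 := by linarith
      rw [hS, ← hc, this]; simp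
    · have e1 : x ^ 2 ≤ x ^ 2 / (σ 0 0).re := by
        rw [le_div_iff₀ hc]
        have : (σ 0 0).re ≤ 1 := by linarith
        exact mul_le_of_le_one_right (sq_nonneg x) this
      have e2 : 0 ≤ x ^ 2 / (σ 1 1).re := by positivity
      linarith
  have hsum : a 0 + a 1 = 1 := by
    have := (hs.1.isHermitian.trace_eq_sum_eigenvalues).symm.trans hs.2
    rw [Fin.sum_univ_two] at this
    have h5 : ((a 0 + a 1 : ℝ) : ℂ) = ((1 : ℝ) : ℂ) := by
      push_cast
      exact this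
    exact Complex.ofReal_injective h5
  have hdiag : ∀ i, (Uᴴ * chM σ * U) i i = (a i : ℂ) := by
    intro i
    rw [mul_assoc, hE, ← mul_assoc, hU', one_mul, Matrix.diagonal_apply_eq]
  have hEe : ∀ k i, (chM σ * U) k i = U k i * (a i : ℂ) := by
    intro k i
    rw [hE, Matrix.mul_diagonal]
  have hmain : ∀ i, (if a i = 0 then 0 else 2 / (a i + a i)) * ‖(Uᴴ * chM X * U) i i‖ ^ 2 ≤
      6 * (S + z ^ 2) := by
    intro i
    split_ifs with hai
    · rw [zero_mul]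
      have : 0 ≤ S := le_trans (sq_nonneg x) hxS
      positivity
    · have hai' : 0 < a i := lt_of_le_of_ne (hpos i) (Ne.symm hai)
      have key : ‖(Uᴴ * chM X * U) i i‖ ^ 2 ≤ 6 * a i * (S + z ^ 2) := by
        refine real_ineq (A := ‖U 0 i‖) (B := ‖U 1 i‖) (x := x) (hcol i) h0 h1 h2 ?_ hS ?_ ?_ ?_
        · have e := congrArg Complex.re (hdiag i)
          rw [conj_entry, chM_apply] at e
          simp only [Matrix.of_apply, Matrix.cons_val_zero, Matrix.cons_val_one,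
            Matrix.cons_val', Matrix.empty_val', Matrix.cons_val_fin_one] at e
          rw [hσ10, hσ00, hσ11, Complex.ofReal_re] at e
          set s := σ 0 1 with hsd
          have e3 : (star (U 0 i) * (((σ 0 0).re : ℂ) * U 0 i + s / 2 * U 1 i) +
              star (U 1 i) * (star s / 2 * U 0 i + ((σ 1 1).re : ℂ) * U 1 i)).re =
              (σ 0 0).re * ‖U 0 i‖ ^ 2 + (σ 1 1).re * ‖U 1 i‖ ^ 2 +
                (star (U 0 i) * s * U 1 i).re := by
            rw [← Complex.normSq_eq_norm_sq, ← Complex.normSq_eq_norm_sq]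
            simp [Complex.normSq_apply]
            ring
          rw [e3] at e
          have e4 : -(‖U 0 i‖ * ‖s‖ * ‖U 1 i‖) ≤ (star (U 0 i) * s * U 1 i).re := by
            have := Complex.abs_re_le_norm (star (U 0 i) * s * U 1 i)
            rw [norm_mul, norm_mul, norm_star] at this
            exact (abs_le.mp this).1
          have e5 : ‖U 0 i‖ * ‖s‖ * ‖U 1 i‖ ≤
              1 / 2 * (‖U 0 i‖ ^ 2 * (σ 0 0).re + ‖U 1 i‖ ^ 2 * (σ 1 1).re) := by
            have hs2 : ‖s‖ ^ 2 ≤ (σ 0 0).re * (σ 1 1).re := by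
              rw [← Complex.normSq_eq_norm_sq, Complex.normSq_apply]; nlinarith
            have hn : 0 ≤ 1 / 2 * (‖U 0 i‖ ^ 2 * (σ 0 0).re + ‖U 1 i‖ ^ 2 * (σ 1 1).re) := by
              positivity
            have := abs_le_of_sq_le_sq (a := ‖U 0 i‖ * ‖s‖ * ‖U 1 i‖)
              (b := 1 / 2 * (‖U 0 i‖ ^ 2 * (σ 0 0).re + ‖U 1 i‖ ^ 2 * (σ 1 1).re)) (by
                have w1 : (‖U 0 i‖ * ‖s‖ * ‖U 1 i‖) ^ 2 ≤
                    (‖U 0 i‖ ^ 2 * (σ 0 0).re) * (‖U 1 i‖ ^ 2 * (σ 1 1).re) := by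
                  calc (‖U 0 i‖ * ‖s‖ * ‖U 1 i‖) ^ 2
                      = (‖U 0 i‖ ^ 2 * ‖U 1 i‖ ^ 2) * ‖s‖ ^ 2 := by ring
                    _ ≤ (‖U 0 i‖ ^ 2 * ‖U 1 i‖ ^ 2) * ((σ 0 0).re * (σ 1 1).re) := by gcongr
                    _ = _ := by ring
                nlinarith [sq_nonneg (‖U 0 i‖ ^ 2 * (σ 0 0).re - ‖U 1 i‖ ^ 2 * (σ 1 1).re)]) hn
            exact (le_abs_self _).trans this
          linarith
        · intro hp0
          have e := hEe 0 i
          have hs0 : σ 0 1 = 0 := by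
            have : (σ 0 1).re ^ 2 + (σ 0 1).im ^ 2 ≤ 0 := by rw [hp0] at h3; linarith
            apply Complex.ext
            · simp; nlinarith [sq_nonneg (σ 0 1).re, sq_nonneg (σ 0 1).im]
            · simp; nlinarith [sq_nonneg (σ 0 1).re, sq_nonneg (σ 0 1).im]
          rw [Matrix.mul_apply, Fin.sum_univ_two, chM_apply] at e
          simp only [Matrix.of_apply, Matrix.cons_val_zero, Matrix.cons_val_one,
            Matrix.cons_val', Matrix.empty_val', Matrix.cons_val_fin_one] at e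
          rw [hσ00, hp0, hs0] at e
          simp at e
          rcases e with e | e
          · rw [e]; simp
          · exact absurd e hai
        · intro hq0
          have e := hEe 1 i
          have hs0 : σ 0 1 = 0 := by
            have : (σ 0 1).re ^ 2 + (σ 0 1).im ^ 2 ≤ 0 := by rw [hq0] at h3; linarith
            apply Complex.ext
            · simp; nlinarith [sq_nonneg (σ 0 1).re, sq_nonneg (σ 0 1).im]
            · simp; nlinarith [sq_nonneg (σ 0 1).re, sq_nonneg (σ 0 1).im]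
          rw [Matrix.mul_apply, Fin.sum_univ_two, chM_apply] at e
          simp only [Matrix.of_apply, Matrix.cons_val_zero, Matrix.cons_val_one,
            Matrix.cons_val', Matrix.empty_val', Matrix.cons_val_fin_one] at e
          rw [hσ11, hq0, hσ10, hs0] at e
          simp at e
          rcases e with e | e
          · rw [e]; simp
          · exact absurd e hai
        · rw [abs_norm]
          refine (hbound i i).trans (le_of_eq ?_)
          ring
      have e : 2 / (a i + a i) = 1 / a i := by field_simp; ring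
      rw [e, div_mul_eq_mul_div, one_mul, div_le_iff₀ hai']
      linarith
  have hoffd : ∀ i j, a i + a j = 1 → (if a j = 0 then 0 else 2 / (a i + a j)) *
      ‖(Uᴴ * chM X * U) i j‖ ^ 2 ≤ 2 * (8 * x ^ 2 + 2 * z ^ 2) := by
    intro i j hij
    have e := hoff i j
    have e0 := sq_nonneg ‖(Uᴴ * chM X * U) i j‖
    split_ifs
    · rw [zero_mul]; positivity
    · rw [hij]; linarith
  rw [Fin.sum_univ_two, Fin.sum_univ_two, Fin.sum_univ_two]
  have m0 := hmain 0
  have m1 := hmain 1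
  have o1 := hoffd 0 1 hsum
  have o2 := hoffd 1 0 (by linarith)
  linarith

lemma riem_nonneg {n : Type*} [Fintype n] [DecidableEq n] {σ : Matrix n n ℂ}
    (h : σ.PosSemidef) (Y : Matrix n n ℂ) : 0 ≤ riem k0 σ Y := by
  obtain ⟨U, hU, -, hE⟩ := spectral h.isHermitian
  have hpos : ∀ i, 0 ≤ h.isHermitian.eigenvalues i := h.eigenvalues_nonneg
  rw [riem_formula h.isHermitian hU hE, ext_k0]
  refine Finset.sum_nonneg fun i _ => Finset.sum_nonneg fun j _ => ?_
  rw [k0_mul_inv (hpos i) (hpos j)]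
  have := hpos i
  have := hpos j
  split_ifs
  · simp
  · positivity

lemma etaRiem_lower : (((1 / 132 : ℝ)) : EReal) ≤ etaRiem k0 chN chM := by
  apply le_sInf
  rintro r ⟨ρ, X, hρ, hX, hX0, hne, rfl⟩
  rw [EReal.coe_le_coe_iff]
  have hpos : 0 < riem k0 (chM ρ) (chM X) :=
    lt_of_le_of_ne (riem_nonneg (chM_state hρ).1 _) (Ne.symm hne)
  rw [le_div_iff₀ hpos]
  have h1 := riemM_upper hρ hX hX0
  have h2 := riemN_lower hρ hX hX0
  have h3 : 0 ≤ ‖X 0 1‖ ^ 2 := sq_nonneg _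
  linarith

lemma sqre (δ : ℝ) : ((δ : ℂ) ^ 2).re = δ ^ 2 := by
  rw [← Complex.ofReal_pow, Complex.ofReal_re]
lemma sqim (δ : ℝ) : ((δ : ℂ) ^ 2).im = 0 := by
  rw [← Complex.ofReal_pow, Complex.ofReal_im]

/-- the reference states -/
noncomputable def gam (δ : ℝ) : Matrix (Fin 2) (Fin 2) ℂ :=
  !![((1 - δ ^ 2 : ℝ) : ℂ), 0; 0, ((δ ^ 2 : ℝ) : ℂ)]
/-- the perturbed states -/
noncomputable def rh (δ : ℝ) : Matrix (Fin 2) (Fin 2) ℂ :=
  !![((1 - δ ^ 2 : ℝ) : ℂ), ((δ / 2 : ℝ) : ℂ); ((δ / 2 : ℝ) : ℂ), ((δ ^ 2 : ℝ) : ℂ)]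

lemma rh_state {δ : ℝ} (h : 0 < δ) (h' : δ ≤ 1 / 2) : IsState (rh δ) := by
  constructor
  · have e : rh δ = vecMulVec ![(1 / 2 : ℂ), (δ : ℂ)] (star ![(1 / 2 : ℂ), (δ : ℂ)]) +
        diagonal (fun i => ((![3 / 4 - δ ^ 2, 0] i : ℝ) : ℂ)) := by
      ext i j
      fin_cases i <;> fin_cases j <;>
        (apply Complex.ext <;> simp [rh, vecMulVec_apply, Matrix.add_apply, sqre, sqim] <;> ring)
    rw [e]
    refine (Matrix.posSemidef_vecMulVec_self_star _).add ?_
    rw [Matrix.posSemidef_diagonal_iff]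
    intro i
    fin_cases i
    · simp only [Fin.zero_eta, Matrix.cons_val_zero]
      have : (0 : ℝ) ≤ 3 / 4 - δ ^ 2 := by nlinarith
      exact_mod_cast this
    · simp
  · rw [Matrix.trace_fin_two]
    simp [rh]

lemma gam_state {δ : ℝ} (h : 0 < δ) (h' : δ ≤ 1 / 2) : IsState (gam δ) := by
  constructor
  · have e : gam δ = diagonal (fun i => ((![1 - δ ^ 2, δ ^ 2] i : ℝ) : ℂ)) := by
      ext i j
      fin_cases i <;> fin_cases j <;> simp [gam]
    rw [e, Matrix.posSemidef_diagonal_iff]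
    intro i
    fin_cases i
    · simp only [Fin.zero_eta, Matrix.cons_val_zero]
      have : (0 : ℝ) ≤ 1 - δ ^ 2 := by nlinarith
      exact_mod_cast this
    · simp only [Fin.mk_one, Matrix.cons_val_one, Matrix.cons_val_fin_one]
      have : (0 : ℝ) ≤ δ ^ 2 := by positivity
      exact_mod_cast this
  · rw [Matrix.trace_fin_two]
    simp [gam]

lemma supp_top {A : Matrix (Fin 2) (Fin 2) ℂ} (h : IsUnit A.det) : supp A = ⊤ := by
  rw [supp, LinearMap.range_eq_top]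
  intro v
  refine ⟨A⁻¹ *ᵥ v, ?_⟩
  rw [Matrix.toLin'_apply, Matrix.mulVec_mulVec, Matrix.mul_nonsing_inv _ h, Matrix.one_mulVec]

lemma supp_eq {δ : ℝ} (h : 0 < δ) (h' : δ ≤ 1 / 2) : supp (rh δ) = supp (gam δ) := by
  rw [supp_top, supp_top]
  · rw [Matrix.det_fin_two]
    simp only [gam, Matrix.of_apply, Matrix.cons_val_zero, Matrix.cons_val_one,
      Matrix.cons_val', Matrix.empty_val', Matrix.cons_val_fin_one]
    rw [← Complex.ofReal_mul, mul_zero, sub_zero, isUnit_iff_ne_zero, Complex.ofReal_ne_zero]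
    have : 0 < 1 - δ ^ 2 := by nlinarith
    positivity
  · rw [Matrix.det_fin_two]
    simp only [rh, Matrix.of_apply, Matrix.cons_val_zero, Matrix.cons_val_one,
      Matrix.cons_val', Matrix.empty_val', Matrix.cons_val_fin_one]
    rw [← Complex.ofReal_mul, ← Complex.ofReal_mul, ← Complex.ofReal_sub, isUnit_iff_ne_zero,
      Complex.ofReal_ne_zero]
    have h1 : 0 < 3 / 4 - δ ^ 2 := by nlinarith
    have h2 : (1 - δ ^ 2) * δ ^ 2 - δ / 2 * (δ / 2) = δ ^ 2 * (3 / 4 - δ ^ 2) := by ring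
    rw [h2]
    positivity

lemma div_M {δ : ℝ} (h : 0 < δ) (h' : δ ≤ 1 / 2) :
    1 / 16 ≤ stdDiv f0 (chM (rh δ)) (chM (gam δ)) := by
  have hg : chM (gam δ) = diagonal (fun i => ((![1 - δ ^ 2, δ ^ 2] i : ℝ) : ℂ)) := by
    rw [chM_apply]
    ext i j
    fin_cases i <;> fin_cases j <;> simp [gam]
  have h1 : 0 < 1 - δ ^ 2 := by nlinarith
  have hpos : ∀ i, 0 < (![1 - δ ^ 2, δ ^ 2] : Fin 2 → ℝ) i := by
    intro i
    fin_cases i
    · simpa using h1
    · simp only [Fin.mk_one, Matrix.cons_val_one, Matrix.cons_val_fin_one]; positivity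
  rw [hg, stdDiv_diag (chM_herm (rh_state h h').1.isHermitian) hpos, Fin.sum_univ_two,
    Fin.sum_univ_two, Fin.sum_univ_two, chM_apply]
  have e01 : ‖(!![rh δ 0 0, rh δ 0 1 / 2; rh δ 1 0 / 2, rh δ 1 1] -
      diagonal (fun i => ((![1 - δ ^ 2, δ ^ 2] i : ℝ) : ℂ))) 0 1‖ ^ 2 / ![1 - δ ^ 2, δ ^ 2] 1 =
      1 / 16 := by
    have : (!![rh δ 0 0, rh δ 0 1 / 2; rh δ 1 0 / 2, rh δ 1 1] -
      diagonal (fun i => ((![1 - δ ^ 2, δ ^ 2] i : ℝ) : ℂ))) 0 1 = ((δ / 4 : ℝ) : ℂ) := by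
      simp [rh]
      ring
    rw [this, Complex.norm_real, Real.norm_eq_abs, sq_abs]
    simp only [Matrix.cons_val_one, Matrix.cons_val_fin_one]
    field_simp
    norm_num
  rw [e01]
  have n1 := hpos 0
  have n2 := hpos 1
  have : ∀ (z : ℂ) (c : ℝ), 0 < c → 0 ≤ ‖z‖ ^ 2 / c := fun z c hc => by positivity
  have q1 := this ((!![rh δ 0 0, rh δ 0 1 / 2; rh δ 1 0 / 2, rh δ 1 1] -
      diagonal (fun i => ((![1 - δ ^ 2, δ ^ 2] i : ℝ) : ℂ))) 0 0) _ n1
  have q2 := this ((!![rh δ 0 0, rh δ 0 1 / 2; rh δ 1 0 / 2, rh δ 1 1] -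
      diagonal (fun i => ((![1 - δ ^ 2, δ ^ 2] i : ℝ) : ℂ))) 1 0) _ n1
  have q3 := this ((!![rh δ 0 0, rh δ 0 1 / 2; rh δ 1 0 / 2, rh δ 1 1] -
      diagonal (fun i => ((![1 - δ ^ 2, δ ^ 2] i : ℝ) : ℂ))) 1 1) _ n2
  linarith

lemma div_N {δ : ℝ} (h : 0 < δ) (h' : δ ≤ 1 / 2) :
    stdDiv f0 (chN (rh δ)) (chN (gam δ)) = δ ^ 2 / 3 := by
  have h1 : 0 < 1 - δ ^ 2 := by nlinarith
  have hg := chN_herm (gam_state h h').1.isHermitian
  have hr := chN_herm (rh_state h h').1.isHermitian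
  have hpos : ∀ i, 0 < rN (gam δ) i := by
    intro i
    fin_cases i <;> simp [rN, gam, sqre, sqim] <;>
      first | nlinarith | (rw [abs_of_pos h]; linarith)
  have hH : (chN (rh δ)).IsHermitian := kraus_herm (rh_state h h').1.isHermitian
  rw [hg, stdDiv_diag hH hpos, hr]
  have e : ∀ i j, ‖(diagonal (fun k => (rN (rh δ) k : ℂ)) - diagonal (fun k => (rN (gam δ) k : ℂ)))
      i j‖ ^ 2 / rN (gam δ) j =
      if i = j then (rN (rh δ) i - rN (gam δ) i) ^ 2 / rN (gam δ) i else 0 := by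
    intro i j
    rw [Matrix.sub_apply]
    split_ifs with hij
    · subst hij
      rw [Matrix.diagonal_apply_eq, Matrix.diagonal_apply_eq, ← Complex.ofReal_sub,
        Complex.norm_real, Real.norm_eq_abs, sq_abs]
    · rw [Matrix.diagonal_apply_ne _ hij, Matrix.diagonal_apply_ne _ hij]
      simp
  simp only [e, Finset.sum_ite_eq, Finset.mem_univ, if_true]
  rw [Fin.sum_univ_six]
  simp [rN, rh, gam, sqre, sqim]
  ring

theorem etaStd_zero : etaStd f0 chN chM = 0 := by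
  apply le_antisymm
  · by_contra hcon
    rw [not_le] at hcon
    obtain ⟨c, hc0, hc⟩ := EReal.lt_iff_exists_real_btwn.mp hcon
    have hc0' : 0 < c := by exact_mod_cast hc0
    obtain ⟨δ, hδ, hδ1, hδ2⟩ : ∃ δ : ℝ, 0 < δ ∧ δ ≤ 1 / 2 ∧ 16 / 3 * δ ^ 2 ≤ c := by
      refine ⟨min (1 / 2) (c / 6), by positivity, min_le_left _ _, ?_⟩
      have a1 := min_le_left (1 / 2 : ℝ) (c / 6)
      have a2 := min_le_right (1 / 2 : ℝ) (c / 6)
      have a3 : 0 < min (1 / 2 : ℝ) (c / 6) := by positivity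
      nlinarith
    have hM := div_M hδ hδ1
    have hN := div_N hδ hδ1
    have hle : etaStd f0 chN chM ≤ ((stdDiv f0 (chN (rh δ)) (chN (gam δ)) /
        stdDiv f0 (chM (rh δ)) (chM (gam δ)) : ℝ) : EReal) := by
      apply sInf_le
      refine ⟨rh δ, gam δ, rh_state hδ hδ1, gam_state hδ hδ1, ?_, supp_eq hδ hδ1, ?_, rfl⟩
      · intro heq
        have := congrFun (congrFun heq 0) 1
        simp [rh, gam] at this
        exact hδ.ne' this
      · linarith
    have h2 := lt_of_lt_of_le hc hle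
    rw [EReal.coe_lt_coe_iff, hN, lt_div_iff₀ (by linarith)] at h2
    nlinarith
  · apply le_sInf
    rintro r ⟨ρ, γ, hρ, hγ, -, -, hne, rfl⟩
    have h1 : 0 ≤ stdDiv f0 (chN ρ) (chN γ) := stdDiv_nonneg (kraus_herm hρ.1.isHermitian)
    have h2 : 0 ≤ stdDiv f0 (chM ρ) (chM γ) := stdDiv_nonneg (kraus_herm hρ.1.isHermitian)
    exact_mod_cast div_nonneg h1 h2

/-- MP_7112d2, Q1: the answer is yes. The channels act on a qubit; `κ` can be chosen bounded. -/
theorem result : ∃ (b c : ℕ) (N : Matrix (Fin 2) (Fin 2) ℂ →ₗ[ℂ] Matrix (Fin b) (Fin b) ℂ)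
    (M : Matrix (Fin 2) (Fin 2) ℂ →ₗ[ℂ] Matrix (Fin c) (Fin c) ℂ) (f κ : ℝ → ℝ),
    IsChannel N ∧ IsChannel M ∧ ClassF f ∧ ClassK κ ∧
      (∃ L : ℝ, Tendsto κ (𝓝[>] (0 : ℝ)) (𝓝 L)) ∧
      etaStd f N M = 0 ∧ 0 < etaRiem κ N M := by
  refine ⟨6, 2, chN, chM, f0, k0, chN_channel, chM_channel, classF_f0, classK_k0,
    ⟨2, tendsto_k0⟩, etaStd_zero, lt_of_lt_of_le ?_ etaRiem_lower⟩
  exact_mod_cast (by norm_num : (0 : ℝ) < 1 / 132)

end example2

end Pool.Agent.Results.MP_7112d2_mp.ZeroStdPosRiem
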